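import Mathlib
import Pool.Agent.Helper102.KappaPc

set_option autoImplicit false

/-! Pseudocompactness in a cardinal is preserved by linear homeomorphisms of function spaces. -/

namespace Pool.Agent.W642.KP

open Topology Filter Set Cardinal
open Pool.Agent.Helper102.KappaPc

/-- closing off two sets of functions under products and a linear isomorphism -/
theorem closing {M N : Type} [Monoid M] [Monoid N] (κ : Cardinal.{0}) (hκ : ℵ₀ ≤ κ)
    (T : M → N) (S : N → M) (B0 : Set N) (hB0 : #B0 ≤ κ) :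
    ∃ (A : Submonoid M) (B : Submonoid N), #A ≤ κ ∧ #B ≤ κ ∧ B0 ⊆ B ∧ (∀ a ∈ A, T a ∈ B) ∧
      ∀ b ∈ B, S b ∈ A := by
  let F : ℕ → Submonoid M × Submonoid N := fun n => Nat.rec (⊥, Submonoid.closure B0)
    (fun _ p => (Submonoid.closure ((p.1 : Set M) ∪ S '' (p.2 : Set N)),
      Submonoid.closure ((p.2 : Set N) ∪ T '' (p.1 : Set M)))) n
  have hF : ∀ n, F (n + 1) = (Submonoid.closure (((F n).1 : Set M) ∪ S '' ((F n).2 : Set N)),
      Submonoid.closure (((F n).2 : Set N) ∪ T '' ((F n).1 : Set M))) := fun n => rfl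
  have h1 : ∀ n, (F n).1 ≤ (F (n + 1)).1 := fun n => by
    rw [hF]
    exact fun x hx => Submonoid.subset_closure (Or.inl hx)
  have h2 : ∀ n, (F n).2 ≤ (F (n + 1)).2 := fun n => by
    rw [hF]
    exact fun x hx => Submonoid.subset_closure (Or.inl hx)
  have m1 : Monotone fun n => (F n).1 := monotone_nat_of_le_succ h1
  have m2 : Monotone fun n => (F n).2 := monotone_nat_of_le_succ h2
  have hc : ∀ n, #(F n).1 ≤ κ ∧ #(F n).2 ≤ κ := by
    intro n
    induction n with
    | zero =>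
      refine ⟨?_, mk_closure_le κ hκ _ hB0⟩
      show #(⊥ : Submonoid M) ≤ κ
      have : #(⊥ : Submonoid M) = 1 := by
        rw [Cardinal.eq_one_iff_unique]
        exact ⟨⟨fun a b => by
          have ha := Submonoid.mem_bot.1 a.2
          have hb := Submonoid.mem_bot.1 b.2
          exact Subtype.ext (ha.trans hb.symm)⟩, ⟨1⟩⟩
      rw [this]
      exact one_le_aleph0.trans hκ
    | succ n ih =>
      rw [hF]
      constructor
      · apply mk_closure_le κ hκ
        refine (mk_union_le _ _).trans ?_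
        exact (add_le_add ih.1 (mk_image_le.trans ih.2)).trans (add_eq_self hκ).le
      · apply mk_closure_le κ hκ
        refine (mk_union_le _ _).trans ?_
        exact (add_le_add ih.2 (mk_image_le.trans ih.1)).trans (add_eq_self hκ).le
  have hdir1 : Directed (· ≤ ·) fun n => (F n).1 := m1.directed_le
  have hdir2 : Directed (· ≤ ·) fun n => (F n).2 := m2.directed_le
  have e1 : ∀ x, x ∈ (⨆ n, (F n).1) ↔ ∃ n, x ∈ (F n).1 := fun x => Submonoid.mem_iSup_of_directed hdir1
  have e2 : ∀ x, x ∈ (⨆ n, (F n).2) ↔ ∃ n, x ∈ (F n).2 := fun x => Submonoid.mem_iSup_of_directed hdir2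
  refine ⟨⨆ n, (F n).1, ⨆ n, (F n).2, ?_, ?_, ?_, ?_, ?_⟩
  · have h3 : ((⨆ n, (F n).1 : Submonoid M) : Set M) = ⋃ n, ((F n).1 : Set M) := by
      ext x
      simp only [SetLike.mem_coe, e1, mem_iUnion]
    show #((⨆ n, (F n).1 : Submonoid M) : Set M) ≤ κ
    rw [h3]
    refine (mk_iUnion_le _).trans ?_
    rw [mk_nat]
    refine (mul_le_mul' hκ (ciSup_le' fun n => (hc n).1)).trans (mul_eq_self hκ).le
  · have h3 : ((⨆ n, (F n).2 : Submonoid N) : Set N) = ⋃ n, ((F n).2 : Set N) := by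
      ext x
      simp only [SetLike.mem_coe, e2, mem_iUnion]
    show #((⨆ n, (F n).2 : Submonoid N) : Set N) ≤ κ
    rw [h3]
    refine (mk_iUnion_le _).trans ?_
    rw [mk_nat]
    refine (mul_le_mul' hκ (ciSup_le' fun n => (hc n).2)).trans (mul_eq_self hκ).le
  · intro x hx
    exact (e2 x).2 ⟨0, Submonoid.subset_closure hx⟩
  · intro a ha
    obtain ⟨n, hn⟩ := (e1 a).1 ha
    refine (e2 _).2 ⟨n + 1, ?_⟩
    rw [hF]
    exact Submonoid.subset_closure (Or.inr ⟨a, hn, rfl⟩)
  · intro b hb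
    obtain ⟨n, hn⟩ := (e2 b).1 hb
    refine (e1 _).2 ⟨n + 1, ?_⟩
    rw [hF]
    exact Submonoid.subset_closure (Or.inr ⟨b, hn, rfl⟩)

variable {X Y : Type} [TopologicalSpace X] [TopologicalSpace Y]

/-- the space where the values on a set of functions live is compact when the set of values
converges along ultrafilters -/
theorem conv_of_compact {A : Type} (φ : A → C(X, ℝ)) (hc : IsCompact (range fun x a => φ a x))
    (I : Type) (u : Ultrafilter I) (p : I → X) :
    ∃ x : X, ∀ a, Tendsto (fun i => φ a (p i)) u (𝓝 (φ a x)) := by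
  obtain ⟨z, ⟨x, rfl⟩, hz⟩ := hc.ultrafilter_le_nhds (u.map fun i a => φ a (p i)) (by
    rw [le_principal_iff]
    exact Filter.mem_map.2 (Filter.univ_mem' fun i => ⟨p i, rfl⟩))
  exact ⟨x, fun a => (tendsto_pi_nhds.1 hz) a⟩

/-- continuity for the topologies of pointwise convergence, in the form used by the helper file -/
abbrev PC (T : C(X, ℝ) →ₗ[ℝ] C(Y, ℝ)) : Prop :=
  @Continuous C(X, ℝ) (Y → ℝ)
            (TopologicalSpace.induced (fun g : C(X, ℝ) => (g : X → ℝ))
              (inferInstance : TopologicalSpace (X → ℝ)))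
            (inferInstance : TopologicalSpace (Y → ℝ))
            (fun g => ((T g : C(Y, ℝ)) : Y → ℝ))

/-- points whose evaluation functional has `m` terms with coefficients bounded by `n` -/
def YY (T : C(X, ℝ) ≃ₗ[ℝ] C(Y, ℝ)) (m n : ℕ) : Set Y :=
  {y | ∃ (c : Fin m → ℝ) (x : Fin m → X), (∀ i, |c i| ≤ n) ∧
    ∀ f : C(X, ℝ), T f y = ∑ i, c i * f (x i)}

theorem key (T : C(X, ℝ) ≃ₗ[ℝ] C(Y, ℝ)) (hT2 : PC T.symm.toLinearMap)
    (hbY : ∀ f : C(Y, ℝ), ∃ M : ℝ, ∀ y, |f y| ≤ M)
    (A : Submonoid C(X, ℝ)) (B : Submonoid C(Y, ℝ)) (hBA : ∀ b ∈ B, T.symm b ∈ A)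
    (hA : IsCompact (range fun (x : X) (a : A) => (a : C(X, ℝ)) x)) (u : Ultrafilter Y) (m n : ℕ)
    (hu : YY T m n ∈ u) : ∃ y : Y, ∀ b ∈ B, Tendsto b u (𝓝 (b y)) := by
  classical
  obtain ⟨y0, c0, x0, -, -⟩ := u.nonempty_of_mem hu
  have hP : ∀ y, ∃ P : (Fin m → ℝ) × (Fin m → X), y ∈ YY T m n → (∀ i, |P.1 i| ≤ n) ∧
      ∀ f : C(X, ℝ), T f y = ∑ i, P.1 i * f (P.2 i) := by
    intro y
    by_cases hy : y ∈ YY T m n
    · obtain ⟨c, x, h1, h2⟩ := hy
      exact ⟨(c, x), fun _ => ⟨h1, h2⟩⟩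
    · exact ⟨(c0, x0), fun h => absurd h hy⟩
  choose P hP using hP
  -- limits of the coefficients
  have hc : ∀ i, ∃ r : ℝ, Tendsto (fun y => (P y).1 i) u (𝓝 r) := by
    intro i
    obtain ⟨r, -, hr⟩ := (isCompact_Icc (a := -(n : ℝ)) (b := n)).ultrafilter_le_nhds
      (u.map fun y => (P y).1 i) (by
        rw [le_principal_iff]
        refine Filter.mem_map.2 (Filter.mem_of_superset hu fun y hy => ?_)
        exact abs_le.1 ((hP y hy).1 i))
    exact ⟨r, hr⟩
  choose cs hcs using hc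
  have hx : ∀ i, ∃ x : X, ∀ a : A, Tendsto (fun y => (a : C(X, ℝ)) ((P y).2 i)) u
      (𝓝 ((a : C(X, ℝ)) x)) := fun i => conv_of_compact (fun a : A => (a : C(X, ℝ))) hA Y u _
  choose xs hxs using hx
  have hlim : ∀ a ∈ A, Tendsto (fun y => T a y) u (𝓝 (∑ i, cs i * a (xs i))) := by
    intro a ha
    have h1 : Tendsto (fun y => ∑ i, (P y).1 i * a ((P y).2 i)) u (𝓝 (∑ i, cs i * a (xs i))) :=
      tendsto_finsetSum _ fun i _ => (hcs i).mul (hxs i ⟨a, ha⟩)
    refine h1.congr' ?_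
    filter_upwards [hu] with y hy
    exact ((hP y hy).2 a).symm
  let μ : C(Y, ℝ) → ℝ := fun g => ∑ i, cs i * (T.symm g) (xs i)
  have hspan : ∀ g ∈ Submodule.span ℝ (B : Set C(Y, ℝ)), Tendsto g u (𝓝 (μ g)) := by
    intro g hg
    induction hg using Submodule.span_induction with
    | mem b hb =>
      have h1 := hlim _ (hBA b hb)
      simpa using h1
    | zero =>
      have : μ 0 = 0 := by simp [μ]
      rw [this]
      exact tendsto_const_nhds
    | add g h _ _ hg hh =>
      have : μ (g + h) = μ g + μ h := by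
        simp only [μ, map_add, ContinuousMap.add_apply, mul_add, Finset.sum_add_distrib]
      rw [this]
      exact hg.add hh
    | smul r g _ hg =>
      have : μ (r • g) = r * μ g := by
        simp only [μ, map_smul, ContinuousMap.smul_apply, smul_eq_mul, Finset.mul_sum]
        exact Finset.sum_congr rfl fun i _ => by ring
      rw [this]
      exact hg.const_mul r
  choose N d ys hys using fun i => exists_repr T.symm.toLinearMap hT2 (xs i)
  have hys' : ∀ i (g : C(Y, ℝ)), T.symm g (xs i) = ∑ j, d i j * g (ys i j) := hys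
  -- limits exist
  have hex : ∀ b : C(Y, ℝ), ∃ r : ℝ, Tendsto b u (𝓝 r) := by
    intro b
    obtain ⟨M, hM⟩ := hbY b
    obtain ⟨r, -, hr⟩ := (isCompact_Icc (a := -M) (b := M)).ultrafilter_le_nhds (u.map b) (by
      rw [le_principal_iff]
      exact Filter.mem_map.2 (Filter.univ_mem' fun y => abs_le.1 (hM y)))
    exact ⟨r, hr⟩
  by_contra hcon
  push Not at hcon
  choose b hbB hb using hcon
  choose ℓ hℓ using hex
  have hne : ∀ y, ℓ (b y) - b y y ≠ 0 := by
    intro y h
    apply hb y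
    rw [← sub_eq_zero.1 h]
    exact hℓ _
  let S := (i : Fin m) × Fin (N i)
  let F : S → C(Y, ℝ) := fun p => b (ys p.1 p.2) - algebraMap ℝ C(Y, ℝ) (b (ys p.1 p.2) (ys p.1 p.2))
  let g : C(Y, ℝ) := ∏ p, F p
  have hgspan : g ∈ Submodule.span ℝ (B : Set C(Y, ℝ)) := by
    have h1 : g ∈ Algebra.adjoin ℝ (B : Set C(Y, ℝ)) := by
      apply Subalgebra.prod_mem
      intro p _
      exact Subalgebra.sub_mem _ (Algebra.subset_adjoin (hbB _)) (Subalgebra.algebraMap_mem _ _)
    have h2 : g ∈ Subalgebra.toSubmodule (Algebra.adjoin ℝ (B : Set C(Y, ℝ))) := h1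
    rw [Algebra.adjoin_eq_span, Submonoid.closure_eq] at h2
    exact h2
  have hg1 := hspan g hgspan
  have hFp : ∀ p y, F p y = b (ys p.1 p.2) y - b (ys p.1 p.2) (ys p.1 p.2) := fun p y => rfl
  have hgy : ∀ y, g y = ∏ p, F p y := by
    intro y
    show (∏ p, F p) y = _
    rw [ContinuousMap.coe_prod, Finset.prod_apply]
  have hg0 : μ g = 0 := by
    refine Finset.sum_eq_zero fun i _ => ?_
    rw [hys' i g]
    have : ∑ j, d i j * g (ys i j) = 0 := by
      refine Finset.sum_eq_zero fun j _ => ?_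
      have h1 : g (ys i j) = 0 := by
        rw [hgy]
        refine Finset.prod_eq_zero (Finset.mem_univ (⟨i, j⟩ : S)) ?_
        rw [hFp]
        exact sub_self _
      rw [h1, mul_zero]
    rw [this, mul_zero]
  have hg2 : Tendsto g u (𝓝 (∏ p : S, (ℓ (b (ys p.1 p.2)) - b (ys p.1 p.2) (ys p.1 p.2)))) := by
    have h1 : Tendsto (fun y => ∏ p, F p y) u
        (𝓝 (∏ p : S, (ℓ (b (ys p.1 p.2)) - b (ys p.1 p.2) (ys p.1 p.2)))) := by
      refine tendsto_finsetProd _ fun p _ => ?_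
      show Tendsto (fun y => b (ys p.1 p.2) y - b (ys p.1 p.2) (ys p.1 p.2)) u _
      exact (hℓ _).sub_const _
    refine h1.congr fun y => ?_
    exact (hgy y).symm
  have h3 := tendsto_nhds_unique hg1 hg2
  rw [hg0] at h3
  exact absurd h3.symm (Finset.prod_ne_zero_iff.2 fun p _ => hne _)

theorem main (κ : Cardinal.{0}) (hκ : ℵ₀ ≤ κ) [T35Space X] [T35Space Y]
    (T : C(X, ℝ) ≃ₗ[ℝ] C(Y, ℝ)) (hT1 : PC T.toLinearMap) (hT2 : PC T.symm.toLinearMap)
    (hX : ∀ (Z : Type) [TopologicalSpace Z] [T35Space Z],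
        (∃ B : Set (Set Z), TopologicalSpace.IsTopologicalBasis B ∧ #B ≤ κ) →
        ∀ f : X → Z, Continuous f → IsCompact (range f))
    (Z : Type) [TopologicalSpace Z] [T35Space Z]
    (hZ : ∃ B : Set (Set Z), TopologicalSpace.IsTopologicalBasis B ∧ #B ≤ κ)
    (f : Y → Z) (hf : Continuous f) : IsCompact (range f) := by
  classical
  have hbX : ∀ f : C(X, ℝ), ∃ M : ℝ, ∀ x, |f x| ≤ M := by
    intro f
    have h1 := hX ℝ ⟨_, TopologicalSpace.isBasis_countableBasis ℝ,
      (TopologicalSpace.countable_countableBasis ℝ).le_aleph0.trans hκ⟩ f f.continuous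
    obtain ⟨M, hM⟩ := h1.isBounded.subset_closedBall 0
    refine ⟨M, fun x => ?_⟩
    have := hM (mem_range_self x)
    rwa [mem_closedBall_zero_iff, Real.norm_eq_abs] at this
  have hbY : ∀ f : C(Y, ℝ), ∃ M : ℝ, ∀ y, |f y| ≤ M := fun h => bounded_of_bounded T hT1 hbX h
  obtain ⟨ι, hι, φ, hφ⟩ := exists_inducing κ hκ Z hZ
  obtain ⟨A, B, hA, hB, hB0, hAB, hBA⟩ := closing κ hκ (fun a => T a) (fun b => T.symm b)
    (range fun i => (φ i).comp ⟨f, hf⟩) (mk_range_le.trans hι)
  have hAc : IsCompact (range fun (x : X) (a : A) => (a : C(X, ℝ)) x) :=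
    hX (A → ℝ) (exists_basis_pi κ hκ A hA) _ (continuous_pi fun a => (a : C(X, ℝ)).continuous)
  have hkey := key T hT2 hbY A B hBA hAc
  have hall : ∀ u : Ultrafilter Y, ∃ y : Y, ∀ b ∈ B, Tendsto b u (𝓝 (b y)) := by
    intro u
    by_contra hcon
    push Not at hcon
    have hex : ∀ b : C(Y, ℝ), ∃ r : ℝ, Tendsto b u (𝓝 r) := by
      intro b
      obtain ⟨M, hM⟩ := hbY b
      obtain ⟨r, -, hr⟩ := (isCompact_Icc (a := -M) (b := M)).ultrafilter_le_nhds (u.map b) (by
        rw [le_principal_iff]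
        exact Filter.mem_map.2 (Filter.univ_mem' fun y => abs_le.1 (hM y)))
      exact ⟨r, hr⟩
    choose ℓ hℓ using hex
    let q : Y → (B → ℝ) := fun y b => (b : C(Y, ℝ)) y
    have hq : Continuous q := continuous_pi fun b => (b : C(Y, ℝ)).continuous
    let v : B → ℝ := fun b => ℓ b
    have hv : Tendsto q u (𝓝 v) := tendsto_pi_nhds.2 fun b => hℓ b
    have hnot : ∀ k : ℕ, v ∉ closure (q '' YY T (Nat.unpair k).1 (Nat.unpair k).2) := by
      intro k hk
      obtain ⟨w, hw1, hw2⟩ := mem_closure_iff_ultrafilter.1 hk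
      -- pull the ultrafilter back
      have hne : (Filter.comap q w ⊓ 𝓟 (YY T (Nat.unpair k).1 (Nat.unpair k).2)).NeBot := by
        rw [Filter.inf_principal_neBot_iff]
        intro U hU
        obtain ⟨t, ht, htU⟩ := Filter.mem_comap.1 hU
        obtain ⟨z, ⟨y, hy, rfl⟩, hz⟩ := w.nonempty_of_mem (Filter.inter_mem hw1 ht)
        exact ⟨y, htU hz, hy⟩
      let w' : Ultrafilter Y := Ultrafilter.of (Filter.comap q w ⊓ 𝓟 (YY T (Nat.unpair k).1 (Nat.unpair k).2))
      have hw' : (w' : Filter Y) ≤ Filter.comap q w ⊓ 𝓟 (YY T (Nat.unpair k).1 (Nat.unpair k).2) :=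
        Ultrafilter.of_le _
      obtain ⟨y, hy⟩ := hkey w' _ _ (Filter.le_principal_iff.1 (hw'.trans inf_le_right))
      have h1 : Tendsto q w' (𝓝 v) := by
        refine Tendsto.mono_right ?_ hw2
        exact Filter.tendsto_iff_comap.2 (hw'.trans inf_le_left)
      obtain ⟨b, hb, hb2⟩ := hcon y
      apply hb2
      have h2 := (tendsto_pi_nhds.1 h1) ⟨b, hb⟩
      have h3 := tendsto_nhds_unique h2 (hy b hb)
      have h4 : ℓ b = b y := h3
      rw [← h4]
      exact hℓ b
    have hsep : ∀ k : ℕ, ∃ h : (B → ℝ) → ℝ, Continuous h ∧ h v = 0 ∧ (∀ z, 0 ≤ h z ∧ h z ≤ 1) ∧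
        ∀ z ∈ closure (q '' YY T (Nat.unpair k).1 (Nat.unpair k).2), h z = 1 := by
      intro k
      obtain ⟨h, hc, h0, h1⟩ := CompletelyRegularSpace.completely_regular v _ isClosed_closure (hnot k)
      refine ⟨fun z => (h z : ℝ), continuous_subtype_val.comp hc, ?_, fun z => (h z).2, fun z hz => ?_⟩
      · simp only [h0]; rfl
      · have := h1 hz
        simp only [this]
        rfl
    choose h hhc hh0 hh1 hh2 using hsep
    let H : (B → ℝ) → ℝ := fun z => ∑' k, (1 / 2 : ℝ) ^ k * h k z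
    have hbound : ∀ k z, ‖(1 / 2 : ℝ) ^ k * h k z‖ ≤ (1 / 2 : ℝ) ^ k := by
      intro k z
      rw [norm_mul, Real.norm_of_nonneg (by positivity), Real.norm_of_nonneg (hh1 k z).1]
      exact mul_le_of_le_one_right (by positivity) (hh1 k z).2
    have hHc : Continuous H :=
      continuous_tsum (fun k => continuous_const.mul (hhc k)) summable_geometric_two hbound
    have hsum : ∀ z, Summable fun k => (1 / 2 : ℝ) ^ k * h k z := fun z =>
      Summable.of_norm_bounded summable_geometric_two fun k => hbound k z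
    have hHv : H v = 0 := by
      simp only [H, hh0, mul_zero, tsum_zero]
    have hHpos : ∀ y, 0 < H (q y) := by
      intro y
      obtain ⟨m, c, x, hr⟩ := exists_repr T.toLinearMap hT1 y
      obtain ⟨n, hn⟩ := exists_nat_ge (∑ i, |c i|)
      have hy : y ∈ YY T (Nat.unpair (Nat.pair m n)).1 (Nat.unpair (Nat.pair m n)).2 := by
        rw [Nat.unpair_pair]
        exact ⟨c, x, fun i => (Finset.single_le_sum (f := fun i => |c i|)
          (fun j _ => abs_nonneg _) (Finset.mem_univ i)).trans hn, hr⟩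
      have h1 : h (Nat.pair m n) (q y) = 1 := hh2 _ _ (subset_closure ⟨y, hy, rfl⟩)
      have h2 : (1 / 2 : ℝ) ^ (Nat.pair m n) * h (Nat.pair m n) (q y) ≤ H (q y) :=
        (hsum (q y)).le_tsum _ fun k _ => mul_nonneg (by positivity) (hh1 k _).1
      rw [h1, mul_one] at h2
      exact lt_of_lt_of_le (by positivity) h2
    obtain ⟨M, hM⟩ := hbY ⟨fun y => (H (q y))⁻¹, (hHc.comp hq).inv₀ fun y => (hHpos y).ne'⟩
    have h1 : Tendsto (fun y => H (q y)) u (𝓝 0) := by
      rw [← hHv]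
      exact (hHc.tendsto v).comp hv
    have h2 : ∀ᶠ y in (u : Filter Y), H (q y) < 1 / (|M| + 1) :=
      h1.eventually (gt_mem_nhds (by positivity))
    obtain ⟨y, hy⟩ := h2.exists
    have h3 := hM y
    simp only [ContinuousMap.coe_mk] at h3
    rw [abs_of_pos (inv_pos.2 (hHpos y))] at h3
    have h4 : |M| + 1 < (H (q y))⁻¹ := by
      rw [lt_inv_comm₀ (by positivity) (hHpos y), ← one_div]
      exact hy
    linarith [le_abs_self M]
  rw [isCompact_iff_ultrafilter_le_nhds]
  intro w hw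
  have hw' : range f ∈ w := Filter.le_principal_iff.1 hw
  have hne : (Filter.comap f w).NeBot := by
    rw [Filter.comap_neBot_iff]
    intro t ht
    obtain ⟨z, ⟨y, rfl⟩, hz⟩ := w.nonempty_of_mem (Filter.inter_mem hw' ht)
    exact ⟨y, hz⟩
  let u : Ultrafilter Y := Ultrafilter.of (Filter.comap f w)
  have hu : (u : Filter Y) ≤ Filter.comap f w := Ultrafilter.of_le _
  have hmap : Filter.map f u ≤ w := Filter.map_le_iff_le_comap.2 hu
  have hmap' : (u.map f : Filter Z) = w := by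
    have : u.map f = w := Ultrafilter.eq_of_le hmap
    rw [this]
  obtain ⟨y, hy⟩ := hall u
  refine ⟨f y, mem_range_self y, ?_⟩
  rw [← hmap']
  show Filter.map f u ≤ 𝓝 (f y)
  rw [hφ.nhds_eq_comap, ← Filter.tendsto_iff_comap]
  show Tendsto (fun z i => φ i z) (Filter.map f u) _
  rw [Filter.tendsto_map'_iff, tendsto_pi_nhds]
  intro i
  exact hy _ (hB0 ⟨i, rfl⟩)

end Pool.Agent.W642.KP
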